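import Mathlib
import Pool.Agent.H65UA.Main

/-!
# The uniform abc inequality for the values of algebraic functions at the closed points of curves

Let `K` be a number field and `Y = Spec A` a geometrically integral curve over `K` with a finite
map `X` of degree `N` to the affine line: `A` is a domain, finite over `K[X]`. Let `b_1, …, b_N` be a
basis of `A` over `K[X]` containing `1`. The members of the linear system `V_n` are the functions
`∑ P_{kj} X ^ k b_j`, `k ≤ n`, where `P` is a point of the projective space of dimension
`N (n + 1) - 1` over `K`. For almost all `P` the scheme of zeros of the member is a closed point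
`φ : A → M` of `Y`, by Hilbert's irreducibility theorem; its degree grows with `n`. For `A = K[X]`
these are all points of degree `n` of the line.

We prove the uniform abc inequality, with the exponent `1` (that is, `ε = 0`), for the values of ALL
triples `a_0 + a_1 + a_2 = 0` of algebraic functions at ALL these closed points outside of one sparse
set `E` (at most `C exp (m U - √U)` of the about `exp (m U)` points `P` of height at most `U`, where
`m = N (n + 1)`), over ALL number fields `L` containing the values: the algebraic functions are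
elements of any Dedekind domain `R` finite over `K[X]` with a homomorphism `π : A → R` (a smooth curve
`Y'` which covers `Y`), the points are all homomorphisms `φ' : R → L` above `φ`, where `L` is any
number field containing `M`, and
`H (φ' a_0, φ' a_1, φ' a_2) * H (φ' X) ^ G ≤ C * δ_L * N (φ' a_0, φ' a_1, φ' a_2)`,
where `C` does not depend on `φ`, `M`, `L` and `φ'`. Here `G` is arbitrarily large; it determines how
large `n` must be. The only condition is that the triple is *quiet* above the closed points of `Y` of
degree more than `2 n + 1`: these are not branch points of the cover, and at the points above them the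
orders of `a_0`, `a_1`, `a_2` are equal. Every triple satisfies this for all large `n` (this is
proved as well). For fixed `n` and `E` the degree of the functions `a_i / a_j`, the number of
their zeros and poles and the degree of the cover are not bounded. Here the conductor is needed: the
discriminants are, roughly, only as large as a power of the height with exponent less than `2 n`,
while the exponent for the height of `a_i / a_j` is arbitrarily large. (For a fixed triple and
`n → ∞` the discriminants alone would suffice.)

The earlier results on this problem which are known to us concern points of bounded degree of the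
line, or all points of one field, counted by their height; there are none for functions on curves.
Proof: the truncated Vojta inequality with discriminants for the covers of curves
(`Pool.Agent.H65CV`, by the author of this file), together with
* the Riemann–Hurwitz inequality in the form of Mason and Stothers: for the nonconstant function
  `β = - a_0 / a_2` on `Y'` the number of the points of `Y'` where `β ∈ {0, 1, ∞}`, plus the number of
  the other ramified points, is bounded from below by the degree of `β` (`Pool.Agent.H65UA.T2`, with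
  derivations of the function field and the valuations at infinity),
* the comparison of the heights belonging to `β` and to `X`, uniformly over all number fields
  (`Pool.Agent.H65UA.T1`, by Siegel's lemma for functions),
* a lower bound for the degrees of the points of `A` above a given polynomial
  (`Pool.Agent.H65UA.Tr`),
* the primes at which `φ'` meets a point where the orders of the `a_i` differ divide the conductor
  (`Pool.Agent.H65UA.Loc`).
-/

set_option autoImplicit false

namespace Pool.Agent.Results.MP_6e34ef_nt.AlgebraicFunctions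

open NumberField IsDedekindDomain Module Polynomial
open scoped LinearAlgebra.Projectivization

section

variable {K A : Type} [Field K] [CommRing A] [Algebra K A]

/-- The member `∑ c_i f_i` of the linear system of functions spanned by the `f_i`. -/
def member {m : ℕ} (f : Fin m → A) (c : Fin m → K) : A := ∑ i, c i • f i

/-- The closed point `φ : A → M`, with residue field `M`, is the scheme of zeros of the member
`∑ c_i f_i`. -/
def IsZero {M : Type} [Field M] [Algebra K M] {m : ℕ} (f : Fin m → A) (c : Fin m → K)
    (φ : A →ₐ[K] M) : Prop :=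
  Function.Surjective φ ∧ RingHom.ker φ = Ideal.span {member f c}

/-- The `N (n + 1)` functions `X ^ k b_j`, `k ≤ n`. -/
noncomputable def system [Algebra K[X] A] {N : ℕ} (b : Fin N → A) (n : ℕ)
    (i : Fin (N * (n + 1))) : A :=
  (X : K[X]) ^ ((finProdFinEquiv.symm i).2 : ℕ) • b (finProdFinEquiv.symm i).1

/-- Sparse sets of points of projective space: at most `C * exp (m U - √U)` points of
(logarithmic, unnormalised) height at most `U`. -/
def Sparse [NumberField K] {m : ℕ} (E : Set (ℙ K (Fin m → K))) : Prop :=
  ∃ C : ℝ, ∀ U : ℝ, 0 ≤ U → {P : ℙ K (Fin m → K) | P ∈ E ∧ Height.logHeight P.rep ≤ U}.Finite ∧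
    ({P : ℙ K (Fin m → K) | P ∈ E ∧ Height.logHeight P.rep ≤ U}.ncard : ℝ) ≤
      C * Real.exp (m * U - √U)

variable (K) in
/-- The triple `a` of functions on the cover `π : A → R` is quiet above the closed points `D` of
`Spec A` of degree more than `d`: the fibre above `D` is reduced, and at the points `v` of the fibre
the functions `a 0`, `a 1`, `a 2` have the same order. -/
def Quiet {R : Type} [CommRing R] [IsDedekindDomain R] [Algebra K[X] A] [Algebra K[X] R]
    (π : A →ₐ[K[X]] R) (a : Fin 3 → R) (d : ℕ) : Prop :=
  ∀ D : Ideal A, D.IsMaximal → d < finrank K (A ⧸ D) →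
    (D.map (π : A →+* R)).IsRadical ∧ ∀ v : HeightOneSpectrum R, v.asIdeal.comap π = D →
      v.intValuation (a 0) = v.intValuation (a 1) ∧ v.intValuation (a 1) = v.intValuation (a 2)

end

/-- The height `H(x_1, …, x_m)`: Mathlib's height (the product over the places), normalised by the
degree of the field. -/
noncomputable def height {L : Type} [Field L] [NumberField L] {m : ℕ} (x : Fin m → L) : ℝ :=
  Height.mulHeight x ^ ((1 : ℝ) / (finrank ℚ L : ℝ))

/-- The root discriminant `δ_L`. -/
noncomputable def rootDisc (L : Type) [Field L] [NumberField L] : ℝ :=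
  |(discr L : ℝ)| ^ ((1 : ℝ) / (finrank ℚ L : ℝ))

open Classical in
/-- The conductor `N(x_0, x_1, x_2)`, as in the frozen statement. -/
noncomputable def conductor {L : Type} [Field L] [NumberField L] (x : Fin 3 → L) : ℝ :=
  (∏ᶠ v : HeightOneSpectrum (𝓞 L),
    if v.valuation L (x 0) = v.valuation L (x 1) ∧ v.valuation L (x 1) = v.valuation L (x 2)
    then (1 : ℝ) else (Ideal.absNorm v.asIdeal : ℝ)) ^ ((1 : ℝ) / (finrank ℚ L : ℝ))

theorem absNorm_ge {L : Type} [Field L] [NumberField L] (v : HeightOneSpectrum (𝓞 L)) :
    (1 : ℝ) ≤ Ideal.absNorm v.asIdeal := by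
  have h : Ideal.absNorm v.asIdeal ≠ 0 := by
    rw [Ne, Ideal.absNorm_eq_zero_iff]
    exact v.ne_bot
  exact_mod_cast Nat.one_le_iff_ne_zero.2 h

theorem bad_finite {L : Type} [Field L] [NumberField L] (x : Fin 3 → L) (hx : ∀ i, x i ≠ 0) :
    {v : HeightOneSpectrum (𝓞 L) | ¬ (v.valuation L (x 0) = v.valuation L (x 1) ∧
      v.valuation L (x 1) = v.valuation L (x 2))}.Finite := by
  have h1 : ∀ i, {v : HeightOneSpectrum (𝓞 L) | v.valuation L (x i) ≠ 1}.Finite := by
    intro i
    have h2 := Pool.Agent.N297.CV.MainC.val_fin (hx i)
    have h3 := Pool.Agent.N297.CV.MainC.val_fin (inv_ne_zero (hx i))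
    refine (h2.union h3).subset ?_
    intro v hv
    rw [Set.mem_ofPred_eq] at hv
    rcases lt_or_gt_of_ne hv with h | h
    · exact Or.inl h
    · refine Or.inr ?_
      rw [Set.mem_ofPred_eq, map_inv₀]
      exact inv_lt_one_of_one_lt₀ h
  refine ((h1 0).union ((h1 1).union (h1 2))).subset ?_
  intro v hv
  by_contra hc
  simp only [Set.mem_union, Set.mem_ofPred_eq, not_or, not_not] at hc
  apply hv
  rw [hc.1, hc.2.1, hc.2.2]
  exact ⟨rfl, rfl⟩

theorem prod_le {L : Type} [Field L] [NumberField L] (x : Fin 3 → L) (hx : ∀ i, x i ≠ 0)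
    (W : Finset (HeightOneSpectrum (𝓞 L)))
    (hW : ∀ w ∈ W, ¬ (w.valuation L (x 0) = w.valuation L (x 1) ∧
      w.valuation L (x 1) = w.valuation L (x 2))) :
    (∏ w ∈ W, (Ideal.absNorm w.asIdeal : ℝ)) ^ ((1 : ℝ) / (finrank ℚ L : ℝ)) ≤ conductor x := by
  classical
  unfold conductor
  refine Real.rpow_le_rpow (Finset.prod_nonneg fun _ _ => Nat.cast_nonneg _) ?_ (by positivity)
  have hfin := bad_finite x hx
  rw [finprod_eq_prod_of_mulSupport_subset (s := hfin.toFinset) _ (by
    intro w hw
    rw [Function.mem_mulSupport] at hw
    rw [Set.Finite.coe_toFinset]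
    intro hc
    exact hw (if_pos hc))]
  have hWs : W ⊆ hfin.toFinset := by
    intro w hw
    rw [Set.Finite.mem_toFinset]
    exact hW w hw
  have h1 : ∏ w ∈ W, (Ideal.absNorm w.asIdeal : ℝ) =
      ∏ w ∈ hfin.toFinset, if w ∈ W then (Ideal.absNorm w.asIdeal : ℝ) else 1 := by
    rw [Finset.prod_ite_mem, Finset.inter_eq_right.2 hWs]
  rw [h1]
  refine Finset.prod_le_prod (fun w _ => ?_) (fun w _ => ?_)
  · split_ifs
    · exact Nat.cast_nonneg _
    · exact zero_le_one
  · by_cases hw : w ∈ W
    · rw [if_pos hw, if_neg (hW w hw)]
    · rw [if_neg hw]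
      split_ifs
      · exact le_rfl
      · exact absNorm_ge w

/-- **The uniform abc inequality for the values of algebraic functions at the closed points of
curves.** -/
theorem result (K A : Type) [Field K] [NumberField K] [CommRing A] [IsDomain A] [Algebra K A]
    [Algebra K[X] A] [IsScalarTower K K[X] A] [Module.Finite K[X] A] [FaithfulSMul K[X] A]
    (hA : IsDomain (TensorProduct K (AlgebraicClosure K) A)) :
    -- (1) the inequality
    (∀ (N : ℕ) (b : Basis (Fin N) K[X] A), (∃ i, b i = 1) → ∀ G : ℝ, 0 ≤ G →
      ∃ n₀ : ℕ, ∀ n, n₀ ≤ n → ∃ E : Set (ℙ K (Fin (N * (n + 1)) → K)), Sparse E ∧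
        ∀ (R : Type) [CommRing R] [IsDedekindDomain R] [Algebra K R] [Algebra K[X] R]
          [IsScalarTower K K[X] R] [Module.Finite K[X] R] [FaithfulSMul K[X] R]
          (π : A →ₐ[K[X]] R) (a : Fin 3 → R), (∀ i, a i ≠ 0) → a 0 + a 1 + a 2 = 0 →
          Quiet K π a (2 * n + 1) →
          ∃ C : ℝ, 0 < C ∧ ∀ (M : Type) [Field M] [NumberField M] [Algebra K M] (φ : A →ₐ[K] M)
            (P : ℙ K (Fin (N * (n + 1)) → K)), P ∉ E → IsZero (system (K := K) b n) P.rep φ →
            ∀ (L : Type) [Field L] [NumberField L] [Algebra K L] [Algebra M L]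
              [IsScalarTower K M L] (φ' : R →ₐ[K] L),
              (∀ x, φ' (π x) = algebraMap M L (φ x)) → (∀ i, φ' (a i) ≠ 0) →
              height (fun i => φ' (a i)) * height ![φ' (algebraMap K[X] R X), 1] ^ G ≤
                C * rootDisc L * conductor (fun i => φ' (a i))) ∧
    -- (2) every triple is quiet above the points of large degree
    ∀ (R : Type) [CommRing R] [IsDedekindDomain R] [Algebra K R] [Algebra K[X] R]
      [IsScalarTower K K[X] R] [Module.Finite K[X] R] [FaithfulSMul K[X] R]
      (π : A →ₐ[K[X]] R) (a : Fin 3 → R), (∀ i, a i ≠ 0) →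
      ∃ n₁ : ℕ, ∀ n, n₁ ≤ n → Quiet K π a (2 * n + 1) := by
  classical
  refine ⟨?_, ?_⟩
  · intro N b hb G hG
    obtain ⟨n₀, hn₀⟩ := Pool.Agent.H65UA.main K A hA N b hb G hG
    refine ⟨n₀, fun n hn => ?_⟩
    obtain ⟨E, hE, h⟩ := hn₀ n hn
    refine ⟨E, hE, ?_⟩
    intro R _ _ _ _ _ _ _ π a ha hsum hq
    obtain ⟨C, hC⟩ := h R π (a 0) (a 1) (a 2) (ha 0) (ha 1) (ha 2) hsum hq
    refine ⟨Real.exp C, Real.exp_pos C, ?_⟩
    intro M _ _ _ φ P hP hz L _ _ _ _ _ φ' hφ' hne
    obtain ⟨W, hW, hineq⟩ := hC M φ P hP hz.1 hz.2 L φ' hφ' (hne 0) (hne 1) (hne 2)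
    have hvec : (fun i => φ' (a i)) = ![φ' (a 0), φ' (a 1), φ' (a 2)] := by
      funext i
      fin_cases i <;> rfl
    have hd : (0 : ℝ) < finrank ℚ L := by exact_mod_cast finrank_pos
    have hdisc : (0 : ℝ) < |(discr L : ℝ)| := by
      rw [abs_pos]
      exact_mod_cast discr_ne_zero L
    have hprod : (0 : ℝ) < ∏ w ∈ W, (Ideal.absNorm w.asIdeal : ℝ) :=
      Finset.prod_pos fun w _ => zero_lt_one.trans_le (absNorm_ge w)
    have h1 := prod_le (fun i => φ' (a i)) hne W hW
    have hH := Height.mulHeight_pos (fun i => φ' (a i))
    have hX := Height.mulHeight_pos ![φ' (algebraMap K[X] R X), 1]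
    refine le_trans ?_ (mul_le_mul_of_nonneg_left h1
      (mul_nonneg (Real.exp_pos C).le (Real.rpow_nonneg (abs_nonneg _) _)))
    unfold height rootDisc
    rw [← Real.log_le_log_iff (by positivity) (by positivity),
      Real.log_mul (by positivity) (by positivity), Real.log_mul (by positivity) (by positivity),
      Real.log_mul (by positivity) (by positivity), Real.log_rpow hH,
      Real.log_rpow (by positivity), Real.log_rpow hX, Real.log_exp, Real.log_rpow hdisc,
      Real.log_rpow hprod, Real.log_prod (fun w _ => (zero_lt_one.trans_le (absNorm_ge w)).ne')]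
    have h2 : Height.logHeight ![φ' (a 0), φ' (a 1), φ' (a 2)] =
        Real.log (Height.mulHeight (fun i => φ' (a i))) := by
      rw [hvec]
      rfl
    have h3 : Height.logHeight₁ (φ' (algebraMap K[X] R X)) =
        Real.log (Height.mulHeight ![φ' (algebraMap K[X] R X), 1]) := by
      rw [Height.logHeight₁_eq_logHeight]
      rfl
    rw [h2, h3] at hineq
    have h4 : ∑ w ∈ W, Pool.Agent.N753.DR.lN w =
        ∑ w ∈ W, Real.log (Ideal.absNorm w.asIdeal : ℝ) := rfl
    rw [h4] at hineq
    have h5 := mul_le_mul_of_nonneg_left hineq (one_div_pos.2 hd).le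
    have h6 : 1 / (finrank ℚ L : ℝ) * (∑ w ∈ W, Real.log (Ideal.absNorm w.asIdeal : ℝ) +
        Real.log |(discr L : ℝ)| + C * finrank ℚ L) =
        C + 1 / (finrank ℚ L : ℝ) * Real.log |(discr L : ℝ)| +
          1 / (finrank ℚ L : ℝ) * ∑ w ∈ W, Real.log (Ideal.absNorm w.asIdeal : ℝ) := by
      field_simp
      ring
    rw [h6] at h5
    refine le_trans (le_of_eq ?_) h5
    ring
  · intro R _ _ _ _ _ _ _ π a ha
    obtain ⟨d₀, hd₀⟩ := Pool.Agent.H65UA.quiet_large (K := K) π (ha 0) (ha 1) (ha 2)
    exact ⟨d₀, fun n hn D hD hd => hd₀ D hD (by omega)⟩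

end Pool.Agent.Results.MP_6e34ef_nt.AlgebraicFunctions
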