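import Mathlib
import Pool.Agent.Helper93.UA.Main

/-!
# The uniform abc inequality with ONE constant for ALL number fields of ALL degrees, near generic points

The uniform abc conjecture asks for one constant `C` with `H ≤ C (δ_K N) ^ (1 + ε)` for all number
fields `K`, without a bound for the degree, and all `x ∈ K`, `x ≠ 0, 1` (`H`, `N` are the height and
the conductor of `(x, 1 - x, -1)` and `δ_K` is the root discriminant). We prove that near a generic
real, complex, `p`-adic, … number this is true, with one constant for all degrees: there are `c_n > 0`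
such that for almost all real `z` (and all `κ > 1 / 2`, in particular for the exponent `1`) there is `C`
with `H ≤ C (δ_K N) ^ κ` for ALL number fields `K`, of every degree `n`, and ALL `x ∈ K`, `x ≠ 0, 1` with
`|x - z| ≤ c_n H(x) ^ (-n (n + 1))`, and even for `|x - z| ≤ c_n H(x) ^ (-A n (1 + log n) ^ 2)`.
(By theorems of Sprindzhuk, Bernik and Beresnevich there are infinitely many such `x` of every degree
`n`, for almost all `z`.) The exceptional `z` form a set of dimension at most `1 / (2 κ)`; for all `z`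
outside a set of dimension zero the inequality holds with some exponent `κ` and one constant for all
number fields.

Proof. The starting result `FewViolators` bounds the number of the violations over the fields of
degree `n` by `M_n B ^ (n e_n / κ + δ)` with `e_n = O(log ^ 2 n)` and unspecified `M_n`, and
`AllDegreesAlmostAll` gives the case `n = 1`. The constants `c_n` are chosen such that the sums of the
powers of the radii over the violations of all degrees together converge, for countably many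
exponents at once; an argument of Borel and Cantelli for Hausdorff measures shows that almost all
points are in finitely many of the balls around ALL violations only.
-/

set_option autoImplicit false

namespace Pool.Agent.Results.MP_6e34ef_nt.OneConstantAllDegrees

open NumberField IsDedekindDomain Filter Topology MeasureTheory
open FewViolators (height conductor rootDisc expo Viol)

/-- `φ` maps the algebraic numbers to a metric space `T`, and `z ∈ T`. For ALL number fields `K` (in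
the algebraic closure of `ℚ`), of every degree `n`, and all `x ∈ K`, `x ≠ 0, 1`, whose image has
distance at most `c_n H(x) ^ (-s_n)` from `z`, the triple `(x, 1 - x, -1)` satisfies
`log H ≤ κ (log δ_K + log N) + C`. -/
def Near {T : Type} [MetricSpace T] (φ : AlgebraicClosure ℚ → T) (z : T) (c s : ℕ → ℝ)
    (κ C : ℝ) : Prop :=
  ∀ (K : IntermediateField ℚ (AlgebraicClosure ℚ)) [NumberField K] (x : K),
    x ≠ 0 → x ≠ 1 →
    dist (φ x) z ≤ c (Module.finrank ℚ K) *
      Real.exp (height ![x, 1 - x, -1]) ^ (-(s (Module.finrank ℚ K))) →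
    height ![x, 1 - x, -1] ≤ κ * (rootDisc K + conductor ![x, 1 - x, -1]) + C

/-- the number of the violations over `ℚ` -/
lemma count_one (κ c δ : ℝ) (hκ : 0 < κ) (hδ : 0 < δ) :
    ∃ M : ℝ, ∀ B : ℝ, 1 ≤ B → (Viol 1 κ c B).Finite ∧
      ((Viol 1 κ c B).ncard : ℝ) ≤ M * B ^ (((1 : ℕ) : ℝ) * (2 / 3) / κ + δ) := by
  obtain ⟨A, hA⟩ := AllDegreesAlmostAll.viol_log κ (Real.exp c) δ hκ (Real.exp_pos c) hδ
  refine ⟨Real.exp A, fun B hB => ?_⟩
  have hB0 : 0 < B := by linarith
  haveI : NumberField (⊥ : IntermediateField ℚ (AlgebraicClosure ℚ)) := ⟨⟩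
  have hfr : Module.finrank ℚ (⊥ : IntermediateField ℚ (AlgebraicClosure ℚ)) = 1 :=
    IntermediateField.finrank_bot
  set f : (⊥ : IntermediateField ℚ (AlgebraicClosure ℚ)) →
      IntermediateField ℚ (AlgebraicClosure ℚ) × AlgebraicClosure ℚ := fun x => (⊥, x) with hf
  have hfin : (AllDegreesAlmostAll.Viol (⊥ : IntermediateField ℚ (AlgebraicClosure ℚ)) κ
      (Real.exp c) B).Finite := (AllDegreesAlmostAll.fin_Pts hB0).subset fun x hx => hx.1
  have hsub : Viol 1 κ c B ⊆ f '' (AllDegreesAlmostAll.Viol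
      (⊥ : IntermediateField ℚ (AlgebraicClosure ℚ)) κ (Real.exp c) B) := by
    rintro ⟨K, y⟩ ⟨hK, x, hxy, hd, hx0, hx1, hh, hv⟩
    dsimp only at hK x hxy hd hh hv
    have hbot : K = ⊥ := IntermediateField.finrank_eq_one_iff.1 hd
    subst hbot
    refine ⟨x, ⟨⟨hx0, hx1, ?_⟩, ?_⟩, ?_⟩
    · show Real.exp _ ≤ B
      rw [← Real.le_log_iff_exp_le hB0]
      exact hh
    · show Real.exp c * (AllDegreesAlmostAll.rootDisc _ * AllDegreesAlmostAll.N x) ^ κ <
        AllDegreesAlmostAll.H x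
      rw [AllDegreesAlmostAll.viol_cond (Real.exp_pos c), Real.log_exp]
      exact hv
    · show ((⊥ : IntermediateField ℚ (AlgebraicClosure ℚ)), (x : AlgebraicClosure ℚ)) = (⊥, y)
      rw [hxy]
  refine ⟨(hfin.image f).subset hsub, ?_⟩
  have h1 : ((Viol 1 κ c B).ncard : ℝ) ≤ ((AllDegreesAlmostAll.Viol
      (⊥ : IntermediateField ℚ (AlgebraicClosure ℚ)) κ (Real.exp c) B).ncard : ℝ) := by
    have h2 := Set.ncard_le_ncard hsub (hfin.image f)
    have h3 := Set.ncard_image_le (f := f) hfin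
    exact_mod_cast h2.trans h3
  refine (h1.trans (hA _ B hB)).trans ?_
  rw [hfr, Nat.cast_one, one_mul, one_mul, Real.rpow_def_of_pos hB0, ← Real.exp_add]
  apply Real.exp_le_exp.2
  have h4 := Pool.Agent.Y733.UD.rd_nonneg (⊥ : IntermediateField ℚ (AlgebraicClosure ℚ))
  have h5 : (2 / (3 * κ) + δ) * Real.log B = Real.log B * (2 / 3 / κ + δ) := by
    field_simp
  linarith

lemma expo_le {n : ℕ} (hn : 2 ≤ n) : expo n ≤ ((n : ℝ) + 1) / 2 := by
  have h1 : 2 ≤ n.minFac := (Nat.minFac_prime (by omega)).two_le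
  have h2 : n / n.minFac ≤ n / 2 := Nat.div_le_div_left h1 (by norm_num)
  have h3 : 2 * (n - n / n.minFac) ≥ n := by omega
  have h4 : (n : ℝ) ≤ 2 * ((n - n / n.minFac : ℕ) : ℝ) := by exact_mod_cast h3
  have hn0 : (0 : ℝ) < n := by exact_mod_cast (by omega : 0 < n)
  have h5 : (0 : ℝ) < ((n - n / n.minFac : ℕ) : ℝ) := by linarith
  unfold expo
  rw [div_le_div_iff₀ (by positivity) (by norm_num)]
  have h6 : (((n + 2) * (n - 1) : ℕ) : ℝ) = ((n : ℝ) + 2) * ((n : ℝ) - 1) := by
    rw [Nat.cast_mul, Nat.cast_sub (by omega)]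
    push_cast
    ring
  rw [h6]
  nlinarith

/-- sets of dimension less than one on the real line are null -/
lemma ae_real {E : Set ℂ} (hE : dimH E < 1) : ∀ᵐ z : ℝ, (z : ℂ) ∉ E := by
  rw [ae_iff]
  have hset : {z : ℝ | ¬ (z : ℂ) ∉ E} = (fun z : ℝ => (z : ℂ)) ⁻¹' E := by
    ext z
    simp
  rw [hset]
  have hanti : AntilipschitzWith 1 (fun z : ℝ => (z : ℂ)) := Complex.isometry_ofReal.antilipschitz
  have hdim : dimH ((fun z : ℝ => (z : ℂ)) ⁻¹' E) < 1 :=
    lt_of_le_of_lt (hanti.dimH_preimage_le E) hE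
  have h1 : Measure.hausdorffMeasure (1 : ℝ) ((fun z : ℝ => (z : ℂ)) ⁻¹' E) = 0 := by
    have h2 := hausdorffMeasure_of_dimH_lt (d := 1) (s := (fun z : ℝ => (z : ℂ)) ⁻¹' E)
      (by simpa using hdim)
    simpa using h2
  rwa [hausdorffMeasure_real] at h1

/-- sets of dimension less than two in the complex plane are null -/
lemma ae_complex {E : Set ℂ} (hE : dimH E < 2) : ∀ᵐ z : ℂ, z ∉ E := by
  rw [ae_iff]
  have hset : {z : ℂ | ¬ z ∉ E} = E := by
    ext z
    simp
  rw [hset]
  have h2 : dimH E < ((2 : NNReal) : ENNReal) := by simpa using hE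
  have h3 := hausdorffMeasure_of_dimH_lt h2
  have h4 : (Module.finrank ℝ ℂ : ℝ) = ((2 : NNReal) : ℝ) := by
    rw [Complex.finrank_real_complex]
    norm_num
  rw [← h4] at h3
  exact (MeasureTheory.Measure.absolutelyContinuous_isAddHaarMeasure _ _) h3

lemma Near.mono {T : Type} [MetricSpace T] {φ : AlgebraicClosure ℚ → T} {z : T} {c s : ℕ → ℝ}
    {κ κ' C : ℝ} (h : Near φ z c s κ C) (hκ : κ ≤ κ') : Near φ z c s κ' C := by
  intro K _ x h0 h1 hw
  refine (h K x h0 h1 hw).trans ?_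
  have h2 := UniformAbcWindows.nonneg ![x, 1 - x, -1]
  have h3 := mul_le_mul_of_nonneg_right hκ h2
  linarith

/-- **Theorem.** There are numbers `e_n ≥ 0`, `n ≥ 1`, with `e_n ≤ (n + 1) / 2` and
`e_n = O(log ^ 2 n)` such that: (1) For all `s_n > 0` there are `c_n > 0` such that for every map `φ`
of the algebraic numbers to a metric space `T` and every `D` with `n e_n ≤ D s_n` for all `n ≥ 1`: for
each `κ > 0` there is a set `E ⊆ T` of Hausdorff dimension at most `D / κ` such that for each `z ∈ T`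
outside `E` there is ONE constant `C` with `H ≤ exp(C) (δ_K N) ^ κ` for ALL number fields `K` of ALL
degrees `n` and ALL `x ∈ K`, `x ≠ 0, 1`, with `dist (φ x) z ≤ c_n H(x) ^ (-s_n)`; and there is a set
`E` of dimension zero such that for each `z` outside `E` this is true for some `κ` and `C`.
(2) There are `A > 0` and `c_n > 0` such that for every embedding of the algebraic numbers in `ℂ`, for
almost all real `z` and every `κ > 1 / 2` there is `C` such that `H ≤ exp(C) (δ_K N) ^ κ` for ALL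
number fields `K` of ALL degrees `n` and ALL `x ∈ K`, `x ≠ 0, 1`, with
`|x - z| ≤ c_n H(x) ^ (-min (n (n + 1), A n (1 + log n) ^ 2))`. (3) The same for almost all complex
`z` and half of this exponent. -/
theorem result :
    (∃ e : ℕ → ℝ, (∀ n, 0 ≤ e n) ∧ (∀ n : ℕ, 1 ≤ n → e n ≤ ((n : ℝ) + 1) / 2) ∧
      (∀ a : ℝ, 1 / (8 * (Real.log 2) ^ 2) < a → ∀ᶠ n : ℕ in atTop, e n ≤ a * (Real.log n) ^ 2) ∧
      ∀ s : ℕ → ℝ, (∀ n, 1 ≤ n → 0 < s n) → ∃ c : ℕ → ℝ, (∀ n, 0 < c n) ∧
        ∀ (T : Type) [MetricSpace T] (φ : AlgebraicClosure ℚ → T) (D : ℝ), 0 ≤ D →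
          (∀ n : ℕ, 1 ≤ n → (n : ℝ) * e n ≤ D * s n) →
          (∀ κ : ℝ, 0 < κ → ∃ E : Set T, dimH E ≤ ENNReal.ofReal (D / κ) ∧
            ∀ z : T, z ∉ E → ∃ C : ℝ, Near φ z c s κ C) ∧
          ∃ E : Set T, dimH E = 0 ∧ ∀ z : T, z ∉ E → ∃ κ C : ℝ, Near φ z c s κ C) ∧
    (∃ (A : ℝ) (c : ℕ → ℝ), 0 < A ∧ (∀ n, 0 < c n) ∧
      ∀ ι : AlgebraicClosure ℚ →+* ℂ, ∀ᵐ z : ℝ, ∀ κ : ℝ, 1 / 2 < κ → ∃ C : ℝ,
        Near ι (z : ℂ) c (fun n => min ((n : ℝ) * (n + 1)) (A * n * (1 + Real.log n) ^ 2)) κ C) ∧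
    (∃ (A : ℝ) (c : ℕ → ℝ), 0 < A ∧ (∀ n, 0 < c n) ∧
      ∀ ι : AlgebraicClosure ℚ →+* ℂ, ∀ᵐ z : ℂ, ∀ κ : ℝ, 1 / 2 < κ → ∃ C : ℝ,
        Near ι z c (fun n => min ((n : ℝ) * (n + 1)) (A * n * (1 + Real.log n) ^ 2) / 2) κ C) := by
  obtain ⟨e, he1, he2, he3⟩ := FewViolators.result.1
  set e' : ℕ → ℝ := fun n => if n = 1 then 2 / 3 else max (e n) 0 with he'
  have he0 : ∀ n, 0 ≤ e' n := fun n => by
    simp only [he']
    split_ifs
    · norm_num
    · exact le_max_right _ _
  have hle : ∀ n : ℕ, 1 ≤ n → e' n ≤ ((n : ℝ) + 1) / 2 := by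
    intro n hn
    simp only [he']
    split_ifs with h
    · rw [h]
      norm_num
    · exact max_le ((he2 n (by omega)).trans (expo_le (by omega))) (by positivity)
  have hlog : ∀ a : ℝ, 1 / (8 * (Real.log 2) ^ 2) < a →
      ∀ᶠ n : ℕ in atTop, e' n ≤ a * (Real.log n) ^ 2 := by
    intro a ha
    have ha0 : 0 < a := lt_trans (by
      have := Real.log_pos (by norm_num : (1 : ℝ) < 2)
      positivity) ha
    filter_upwards [he1 a ha, eventually_ge_atTop 2] with n hn hn2
    simp only [he']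
    rw [if_neg (by omega)]
    exact max_le hn (by positivity)
  have hcounts : Pool.Agent.Helper93.UA.Counts e' := by
    intro n hn κ c δ hκ hδ
    simp only [he']
    split_ifs with h
    · subst h
      exact count_one κ c δ hκ hδ
    · obtain ⟨M, hM⟩ := he3 n (by omega) κ c δ hκ hδ
      refine ⟨|M|, fun B hB => ⟨(hM B hB).1, (hM B hB).2.trans ?_⟩⟩
      have hB0 : 0 < B := by linarith
      refine (mul_le_mul_of_nonneg_right (le_abs_self M) (Real.rpow_nonneg hB0.le _)).trans ?_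
      refine mul_le_mul_of_nonneg_left ?_ (abs_nonneg M)
      apply Real.rpow_le_rpow_of_exponent_le hB
      have hn0 : (0 : ℝ) ≤ n := Nat.cast_nonneg n
      have h1 : (n : ℝ) * e n / κ ≤ (n : ℝ) * max (e n) 0 / κ :=
        div_le_div_of_nonneg_right (mul_le_mul_of_nonneg_left (le_max_left _ _) hn0) hκ.le
      linarith
  have hmain := fun s hs => Pool.Agent.Helper93.UA.main e' hcounts he0 s hs
  -- the constant `A`
  obtain ⟨A, hA0, hA⟩ : ∃ A : ℝ, 0 < A ∧ ∀ n : ℕ, 1 ≤ n →
      e' n ≤ A / 2 * (1 + Real.log n) ^ 2 := by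
    have hl2 : 1 / (8 * (Real.log 2) ^ 2) < 1 := by
      have h1 : 0.69 < Real.log 2 := by
        have := Real.log_two_gt_d9
        linarith
      rw [div_lt_one (by positivity)]
      nlinarith
    obtain ⟨N, hN⟩ := eventually_atTop.1 (hlog 1 hl2)
    refine ⟨2 * ((N : ℝ) + 1), by positivity, fun n hn => ?_⟩
    have hn1 : (1 : ℝ) ≤ n := by exact_mod_cast hn
    have hlogn : 0 ≤ Real.log n := Real.log_nonneg hn1
    have hN0 : (0 : ℝ) ≤ N := Nat.cast_nonneg N
    rcases le_or_gt N n with h | h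
    · have h2 := hN n h
      nlinarith [mul_nonneg hN0 (sq_nonneg (1 + Real.log n))]
    · have h2 := hle n hn
      have h3 : (n : ℝ) ≤ N := by exact_mod_cast h.le
      have h4 : (1 : ℝ) ≤ (1 + Real.log n) ^ 2 := by nlinarith
      nlinarith [mul_nonneg hN0 (sq_nonneg (1 + Real.log n))]
  have hs1 : ∀ n : ℕ, 1 ≤ n →
      0 < min ((n : ℝ) * (n + 1)) (A * n * (1 + Real.log n) ^ 2) := by
    intro n hn
    have hn1 : (1 : ℝ) ≤ n := by exact_mod_cast hn
    have hlogn : 0 ≤ Real.log n := Real.log_nonneg hn1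
    exact lt_min (by positivity) (by positivity)
  have hs2 : ∀ n : ℕ, 1 ≤ n → (n : ℝ) * e' n ≤
      1 / 2 * min ((n : ℝ) * (n + 1)) (A * n * (1 + Real.log n) ^ 2) := by
    intro n hn
    have hn1 : (1 : ℝ) ≤ n := by exact_mod_cast hn
    have h1 : (n : ℝ) * e' n ≤ n * (((n : ℝ) + 1) / 2) :=
      mul_le_mul_of_nonneg_left (hle n hn) (by linarith)
    have h2 : (n : ℝ) * e' n ≤ n * (A / 2 * (1 + Real.log n) ^ 2) :=
      mul_le_mul_of_nonneg_left (hA n hn) (by linarith)
    rw [mul_min_of_nonneg _ _ (by norm_num : (0 : ℝ) ≤ 1 / 2)]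
    refine le_min ?_ ?_
    · linarith
    · linarith
  refine ⟨⟨e', he0, hle, hlog, fun s hs => ?_⟩, ?_, ?_⟩
  · obtain ⟨c, hc0, hc⟩ := hmain s hs
    refine ⟨c, hc0, fun T _ φ D hD hDs => ⟨hc T φ D hD hDs, ?_⟩⟩
    exact Pool.Agent.Helper93.UA.main_zero (hc T φ D hD hDs)
  · obtain ⟨c, hc0, hc⟩ := hmain _ hs1
    refine ⟨A, c, hA0, hc0, fun ι => ?_⟩
    have hall : ∀ m : ℕ, ∀ᵐ z : ℝ, ∃ C : ℝ, Near ι (z : ℂ) c
        (fun n => min ((n : ℝ) * (n + 1)) (A * n * (1 + Real.log n) ^ 2))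
        (1 / 2 + 1 / ((m : ℝ) + 1)) C := by
      intro m
      have hm0 : (0 : ℝ) < 1 / ((m : ℝ) + 1) := by positivity
      obtain ⟨E, hE1, hE2⟩ := hc ℂ ι (1 / 2) (by norm_num) hs2 (1 / 2 + 1 / ((m : ℝ) + 1))
        (by positivity)
      have hlt : dimH E < 1 := by
        refine lt_of_le_of_lt hE1 ?_
        rw [← ENNReal.ofReal_one]
        refine (ENNReal.ofReal_lt_ofReal_iff one_pos).2 ?_
        rw [div_lt_one (by positivity)]
        linarith
      filter_upwards [ae_real hlt] with z hz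
      exact hE2 z hz
    filter_upwards [ae_all_iff.2 hall] with z hz κ hκ
    obtain ⟨m, hm⟩ := exists_nat_one_div_lt (show 0 < κ - 1 / 2 by linarith)
    obtain ⟨C, hC⟩ := hz m
    exact ⟨C, hC.mono (by linarith)⟩
  · obtain ⟨c, hc0, hc⟩ := hmain (fun n => min ((n : ℝ) * (n + 1))
      (A * n * (1 + Real.log n) ^ 2) / 2) (fun n hn => half_pos (hs1 n hn))
    refine ⟨A, c, hA0, hc0, fun ι => ?_⟩
    have hall : ∀ m : ℕ, ∀ᵐ z : ℂ, ∃ C : ℝ, Near ι z c
        (fun n => min ((n : ℝ) * (n + 1)) (A * n * (1 + Real.log n) ^ 2) / 2)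
        (1 / 2 + 1 / ((m : ℝ) + 1)) C := by
      intro m
      have hm0 : (0 : ℝ) < 1 / ((m : ℝ) + 1) := by positivity
      obtain ⟨E, hE1, hE2⟩ := hc ℂ ι 1 (by norm_num) (fun n hn => by
        have := hs2 n hn
        linarith) (1 / 2 + 1 / ((m : ℝ) + 1)) (by positivity)
      have hlt : dimH E < 2 := by
        refine lt_of_le_of_lt hE1 ?_
        have h2 : (2 : ENNReal) = ENNReal.ofReal 2 := by simp
        rw [h2]
        refine (ENNReal.ofReal_lt_ofReal_iff (by norm_num)).2 ?_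
        rw [div_lt_iff₀ (by positivity)]
        linarith
      filter_upwards [ae_complex hlt] with z hz
      exact hE2 z hz
    filter_upwards [ae_all_iff.2 hall] with z hz κ hκ
    obtain ⟨m, hm⟩ := exists_nat_one_div_lt (show 0 < κ - 1 / 2 by linarith)
    obtain ⟨C, hC⟩ := hz m
    exact ⟨C, hC.mono (by linarith)⟩

end Pool.Agent.Results.MP_6e34ef_nt.OneConstantAllDegrees
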