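import Mathlib
import Pool.Agent.H34x.PL.Main

/-!
# Localization of the uniform abc conjecture at all places over `N ∞` and in the shape of the
conductor

For a number field `K` of degree `n` and `a + b + c = 0` in `K`, `abc ≠ 0`, the conductor is the
product `N(a, b, c) = N_a N_b N_c`, where `N_a` is the part which belongs to the primes at which
`|a| < max(|b|, |c|)`.

Let `d, N ≥ 1`, `η > 0`, `α, β, γ > 0` and `α + β + γ > 1`. We show that Q1 for the number fields in
an arbitrary class of fields of degree at most `d` (all fields of degree at most `d`, one number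
field, the rational numbers, ...) is equivalent to its restriction to the triples such that

* `|a|_w ≤ η |c|_w` at all archimedean places `w`,
* `|a|_v ≤ |N|_v |c|_v` at all primes `v` dividing `N`,
* `N_a ≤ H ^ α`, `N_b ≤ H ^ β` and `N_c ≤ H ^ γ`.

So the uniform `abc` conjecture in bounded degree is a statement about an arbitrarily small
neighbourhood of one cusp, at all archimedean places and any finite set of primes at the same
time, and there one may prescribe the shape of the conductor.

Proof. `x = -a / c` is replaced by `f(J(x ^ m))`. Here `m` is from a finite list which depends only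
on `d`, `N`, `η`, `α`, `β`, `γ` and is such that `x ^ m` is near `0`, `1` or `∞` at all these places
(simultaneous approximation: the archimedean places with `|x| ≈ 1` and the other ones are separated
by a pigeonhole argument on the scales; `Pool.Agent.H34x.PL.arch_scale`, `padic_pow`);
`J(x) = 27 x² (1 - x)² / (4 (x² - x + 1)³)` maps the three cusps to the cusp `0`; and
`f = x ^ (r₁ + r₂ + 1) A(x) / B(x)` is a Padé-Belyi map of large degree, which fixes `0` and gives
the shape. All three are unramified outside `0, 1, ∞` and map `{0, 1, ∞}` to itself, and the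
constants do not depend on the number field.
-/

set_option autoImplicit false

namespace Pool.Agent.Results.MP_6e34ef_nt.PlaceLocalization

open NumberField IsDedekindDomain

section

variable {K : Type} [Field K] [NumberField K]

/-- the height `H(a, b, c)` -/
noncomputable def height (a b c : K) : ℝ :=
  Height.mulHeight ![a, b, c] ^ (1 / (Module.finrank ℚ K : ℝ))

/-- the conductor `N(a, b, c)` -/
noncomputable def conductor (a b c : K) : ℝ :=
  (∏ᶠ v : HeightOneSpectrum (𝓞 K),
    if v.valuation K a = v.valuation K b ∧ v.valuation K b = v.valuation K c then (1 : ℝ)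
    else (Ideal.absNorm v.asIdeal : ℝ)) ^ (1 / (Module.finrank ℚ K : ℝ))

/-- the part `N_a` of the conductor `N(a, b, c)`: it belongs to the primes at which `a` is smaller
than `b` or `c` -/
noncomputable def part (a b c : K) : ℝ :=
  (∏ᶠ v : HeightOneSpectrum (𝓞 K),
    if v.valuation K a < max (v.valuation K b) (v.valuation K c) then
      (Ideal.absNorm v.asIdeal : ℝ) else 1) ^ (1 / (Module.finrank ℚ K : ℝ))

variable (K)

/-- the root discriminant `δ_K` -/
noncomputable def rootDisc : ℝ :=
  |(NumberField.discr K : ℝ)| ^ (1 / (Module.finrank ℚ K : ℝ))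

end

/-- `N_a ≤ H ^ α`, `N_b ≤ H ^ β` and `N_c ≤ H ^ γ` -/
def Shape (α β γ : ℝ) (K : Type) [Field K] [NumberField K] (a b c : K) : Prop :=
  part a b c ≤ height a b c ^ α ∧ part b c a ≤ height a b c ^ β ∧
    part c a b ≤ height a b c ^ γ

/-- `|a| ≤ η |c|` at all archimedean places and `|a| ≤ |N| |c|` at all primes dividing `N` -/
def Near (N : ℕ) (η : ℝ) (K : Type) [Field K] [NumberField K] (a c : K) : Prop :=
  (∀ w : InfinitePlace K, w a ≤ η * w c) ∧
    ∀ v : HeightOneSpectrum (𝓞 K), (N : 𝓞 K) ∈ v.asIdeal →
      v.valuation K a ≤ v.valuation K (N : K) * v.valuation K c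

/-- The inequality `H ≤ C (δ_K N) ^ κ`, with one constant `C`, for all number fields in the class
`F` and all triples with the property `T`. -/
def Holds (F : ∀ (K : Type) [Field K], Prop)
    (T : ∀ (K : Type) [Field K] [NumberField K], K → K → K → Prop) (κ : ℝ) : Prop :=
  ∃ C : ℝ, 0 < C ∧ ∀ (K : Type) [Field K] [NumberField K], F K → ∀ a b c : K, a ≠ 0 → b ≠ 0 →
    c ≠ 0 → a + b + c = 0 → T K a b c → height a b c ≤ C * (rootDisc K * conductor a b c) ^ κ

/-- **Main theorem.** Let `F` be a class of number fields of degree at most `d`, `N ≥ 1`, `η > 0`,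
and `α, β, γ > 0` with `α + β + γ > 1`. Q1 for the fields in `F` is equivalent to its restriction to
the triples with `|a|_w ≤ η |c|_w` at all archimedean places, `|a|_v ≤ |N|_v |c|_v` at all primes
dividing `N`, and `N_a ≤ H ^ α`, `N_b ≤ H ^ β`, `N_c ≤ H ^ γ`. -/
theorem result (d N : ℕ) (hN : 1 ≤ N) (η α β γ : ℝ) (hη : 0 < η) (hα : 0 < α) (hβ : 0 < β)
    (hγ : 0 < γ) (hs : 1 < α + β + γ) (F : ∀ (K : Type) [Field K], Prop)
    (hF : ∀ (K : Type) [Field K] [NumberField K], F K → Module.finrank ℚ K ≤ d) :
    (∀ ε : ℝ, 0 < ε → Holds F (fun _ _ _ _ _ _ => True) (1 + ε)) ↔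
      ∀ ε : ℝ, 0 < ε →
        Holds F (fun K _ _ a b c => Near N η K a c ∧ Shape α β γ K a b c) (1 + ε) := by
  constructor
  · intro H ε hε
    obtain ⟨C, hC, H'⟩ := H ε hε
    exact ⟨C, hC, fun K _ _ hK a b c ha hb hc h _ => H' K hK a b c ha hb hc h trivial⟩
  · intro H
    refine Pool.Agent.H34x.PL.equiv F d hF hα hβ hγ hs N hN hη ?_
    intro ε hε
    obtain ⟨C, hC, H'⟩ := H ε hε
    refine ⟨C, hC, ?_⟩
    intro K _ _ hK a b c ha hb hc h hT
    apply H' K hK a b c ha hb hc h
    obtain ⟨⟨s1, s2, s3⟩, hnear⟩ := hT
    rw [one_mul] at s1 s2 s3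
    exact ⟨hnear, s1, s2, s3⟩

end Pool.Agent.Results.MP_6e34ef_nt.PlaceLocalization
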