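import Mathlib
import Pool.Agent.H34x.SL.Main

/-!
# Localization of the uniform abc conjecture in the shape of the conductor

For a number field `K` of degree `n` and `a + b + c = 0` in `K`, `abc ≠ 0`, the conductor is the
product `N(a, b, c) = N_a N_b N_c`, where `N_a` is the part which belongs to the primes at which
`|a| < max(|b|, |c|)`. For coprime integers `N_a`, `N_b`, `N_c` are the radicals of `a`, `b`, `c`.

Let `α, β, γ > 0` and `α + β + γ > 1`. We show that Q1 (for all number fields, for one number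
field, for the rational numbers, or for the fields in an arbitrary class) is equivalent to its
restriction to the triples with `N_a ≤ H ^ α`, `N_b ≤ H ^ β`, `N_c ≤ H ^ γ`. For instance it
is enough to prove Q1 for the triples all of whose three radicals are at most `H ^ (1 / 3 + δ)`, or
for the triples with `N_a ≤ H ^ (1 / 2 + δ)`, `N_b ≤ H ^ (1 / 2 + δ)` and `N_c ≤ H ^ δ`. (If
`α + β + γ < 1` then Q1 for one field would imply that there are only finitely many such triples, up
to scaling.)

The quantitative form: if the exponent `κ` is admissible for the triples with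
`N_a ≤ C₀ H ^ ((r₀ + 1) / k)`, `N_b ≤ C₀ H ^ ((r₁ + 1) / k)`, `N_c ≤ C₀ H ^ ((r₂ + 1) / k)`, where
`k = r₀ + r₁ + r₂ + 1`, then `κ / (k - κ (k - 1))` is admissible for all triples. For instance the
exponent `8 / 7` for the triples with `N_a, N_b, N_c ≤ C₀ H ^ (1 / 2)` implies the exponent `2` for
all triples.

Proof: for all `r₀, r₁, r₂` there is a rational function
`f = x ^ (r₁ + r₂ + 1) A(x) / B(x)`, `1 - f = (1 - x) ^ (r₀ + r₂ + 1) C(x) / B(x)` over `ℚ` of
degree `k`, with `deg A = r₀`, `deg C ≤ r₁`, `deg B = r₂` (a Padé approximation; by a computation of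
its derivative it is unramified outside `0, 1, ∞`, and the numerator and the denominator are coprime).
It maps triples to triples, multiplies the height by `k` and the three parts of the conductor get at
most the factors `H ^ r₀`, `H ^ r₁`, `H ^ r₂`, with constants which do not depend on the number field
(`Pool.Agent.H34x.SL.map_main`).
-/

set_option autoImplicit false

namespace Pool.Agent.Results.MP_6e34ef_nt.ShapeLocalization

open NumberField IsDedekindDomain

section

variable {K : Type} [Field K] [NumberField K]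

/-- the height `H(a, b, c)` -/
noncomputable def height (a b c : K) : ℝ :=
  Height.mulHeight ![a, b, c] ^ (1 / (Module.finrank ℚ K : ℝ))

/-- the conductor `N(a, b, c)` -/
noncomputable def conductor (a b c : K) : ℝ :=
  (∏ᶠ v : HeightOneSpectrum (𝓞 K),
    if v.valuation K a = v.valuation K b ∧ v.valuation K b = v.valuation K c then (1 : ℝ)
    else (Ideal.absNorm v.asIdeal : ℝ)) ^ (1 / (Module.finrank ℚ K : ℝ))

/-- the part `N_a` of the conductor `N(a, b, c)`: it belongs to the primes at which `a` is smaller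
than `b` or `c` -/
noncomputable def part (a b c : K) : ℝ :=
  (∏ᶠ v : HeightOneSpectrum (𝓞 K),
    if v.valuation K a < max (v.valuation K b) (v.valuation K c) then
      (Ideal.absNorm v.asIdeal : ℝ) else 1) ^ (1 / (Module.finrank ℚ K : ℝ))

variable (K)

/-- the root discriminant `δ_K` -/
noncomputable def rootDisc : ℝ :=
  |(NumberField.discr K : ℝ)| ^ (1 / (Module.finrank ℚ K : ℝ))

end

/-- `N_a ≤ C H ^ α`, `N_b ≤ C H ^ β` and `N_c ≤ C H ^ γ` -/
def Shape (C α β γ : ℝ) (K : Type) [Field K] [NumberField K] (a b c : K) : Prop :=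
  part a b c ≤ C * height a b c ^ α ∧ part b c a ≤ C * height a b c ^ β ∧
    part c a b ≤ C * height a b c ^ γ

/-- The inequality `H ≤ C (δ_K N) ^ κ`, with one constant `C`, for all number fields in the class
`F` and all triples with the property `T`. -/
def Holds (F : ∀ (K : Type) [Field K], Prop)
    (T : ∀ (K : Type) [Field K] [NumberField K], K → K → K → Prop) (κ : ℝ) : Prop :=
  ∃ C : ℝ, 0 < C ∧ ∀ (K : Type) [Field K] [NumberField K], F K → ∀ a b c : K, a ≠ 0 → b ≠ 0 →
    c ≠ 0 → a + b + c = 0 → T K a b c → height a b c ≤ C * (rootDisc K * conductor a b c) ^ κ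

/-- **Main theorem.** The conductor is the product of its three parts. Q1, for the number fields in
an arbitrary class, is equivalent to its restriction to the triples with `N_a ≤ H ^ α`,
`N_b ≤ H ^ β`, `N_c ≤ H ^ γ`, for all positive `α`, `β`, `γ` with `α + β + γ > 1`; and the
quantitative form. -/
theorem result :
    (∀ (K : Type) [Field K] [NumberField K] (a b c : K), a ≠ 0 → b ≠ 0 → c ≠ 0 → a + b + c = 0 →
      conductor a b c = part a b c * part b c a * part c a b) ∧
    (∀ (F : ∀ (K : Type) [Field K], Prop) (α β γ : ℝ), 0 < α → 0 < β → 0 < γ → 1 < α + β + γ →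
      ((∀ ε : ℝ, 0 < ε → Holds F (fun _ _ _ _ _ _ => True) (1 + ε)) ↔
        ∀ ε : ℝ, 0 < ε → Holds F (Shape 1 α β γ) (1 + ε))) ∧
    (∀ r₀ r₁ r₂ k : ℕ, k = r₀ + r₁ + r₂ + 1 → ∃ C₀ : ℝ, 0 < C₀ ∧
      ∀ (F : ∀ (K : Type) [Field K], Prop) (κ : ℝ), 0 < κ → κ * (k - 1) < k →
        Holds F (Shape C₀ ((r₀ + 1) / k) ((r₁ + 1) / k) ((r₂ + 1) / k)) κ →
        Holds F (fun _ _ _ _ _ _ => True) (κ / (k - κ * (k - 1)))) := by
  refine ⟨?_, ?_, ?_⟩
  · intro K _ _ a b c ha hb hc h
    exact Pool.Agent.H34x.SL.conductor_eq ha hb hc h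
  · intro F α β γ hα hβ hγ hs
    constructor
    · intro H ε hε
      obtain ⟨C, hC, H'⟩ := H ε hε
      exact ⟨C, hC, fun K _ _ hK a b c ha hb hc h _ => H' K hK a b c ha hb hc h trivial⟩
    · intro H
      exact Pool.Agent.H34x.SL.equiv F hα hβ hγ hs H
  · intro r₀ r₁ r₂ k hk
    obtain ⟨C₀, hC₀, h⟩ := Pool.Agent.H34x.SL.quant r₀ r₁ r₂
    refine ⟨C₀, hC₀, ?_⟩
    intro F κ hκ hκk H
    have e1 : ((r₀ + r₁ + r₂ + 1 : ℕ) : ℝ) = k := by rw [hk]
    have e2 : ((r₀ + r₁ + r₂ : ℕ) : ℝ) = (k : ℝ) - 1 := by rw [hk]; push_cast; ring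
    have h2 := h F κ hκ (by rw [e1, e2]; exact hκk)
    rw [e1, e2] at h2
    apply h2
    have e3 : ∀ r : ℕ, ((r + 1 : ℕ) : ℝ) = (r : ℝ) + 1 := fun r => by push_cast; ring
    rw [e3, e3, e3]
    exact H

end Pool.Agent.Results.MP_6e34ef_nt.ShapeLocalization
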